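import Pool.Agent.helper12.FR.Top

/-! # Frobenius equivalent stable curves with different admissible fundamental groups

`k` is algebraically closed of characteristic 2 and `lam ∈ k` a primitive fifth root of unity.  For `a, b ∈ k ∖ {0, 1}` let `X(a,b)` be
the stable curve of type `(3,0)` obtained from two projective lines by glueing the points `∞, 0, 1, a` of the first to the
points `∞, 0, 1, b` of the second.  The curves `X(lam^8, lam)` and `X(lam, lam)` are Frobenius equivalent (component by component:
the third power of Frobenius on the first, the identity on the second), but their admissible fundamental groups are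
not isomorphic, and neither are the maximal prosolvable quotients. -/

namespace Pool.Agent.Results.MP_9a897e_ag.FrobeniusTwist

open Pool.Agent.FR

/-- For every primitive fifth root of unity `lam` in an algebraically closed field `k` of characteristic 2 there are
curves `X = X(lam^8, lam)` and `Y = X(lam, lam)` of type `(3,0)` which are Frobenius equivalent; generators `ζ` of
`Hom(ℚ/ℤ, kˣ)` exist; and for every such `ζ` every curve `Z` has a family of inertia elements (one at each special
point of the components), and for all such families `F` of `X` and `G` of `Y` the admissible fundamental groups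
of `X` and `Y` (`sol = False`) and their maximal prosolvable quotients (`sol = True`) are not isomorphic. -/
theorem result (k : Type) [Field k] [CharP k 2] [IsAlgClosed k] (lam : k) (h5 : lam ^ 5 = 1) (h1 : lam ≠ 1) :
    ∃ X Y : Curve k, X.pt = ![pts (lam ^ 8), pts lam] ∧ Y.pt = ![pts lam, pts lam] ∧ FrobEquiv X Y ∧
      (∃ ζ : ℚ → k, IsTate 2 ζ) ∧
      ∀ ζ : ℚ → k, IsTate 2 ζ → (∀ Z : Curve k, Nonempty (InertFam ζ Z)) ∧
        ∀ (F : InertFam ζ X) (G : InertFam ζ Y) (sol : Prop),
          ¬ SamePi1 sol (F.vgrp 0) (F.vgrp 1) (G.vgrp 0) (G.vgrp 1) := by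
  have h0 : lam ≠ 0 := by
    intro h
    rw [h] at h5
    norm_num at h5
  have h8 : lam ^ 8 = lam ^ 3 := by
    have : lam ^ 8 = lam ^ 5 * lam ^ 3 := by ring
    rw [this, h5, one_mul]
  have h0' : lam ^ 8 ≠ 0 := pow_ne_zero 8 h0
  have h1' : lam ^ 8 ≠ 1 := by
    intro h
    rw [h8] at h
    apply h1
    have : lam ^ 5 * lam = (lam ^ 3) ^ 2 := by ring
    rw [h5, h, one_mul, one_pow] at this
    exact this
  obtain ⟨hF, hT, hM⟩ := a_RES k lam h5 h1 h0 h1 h0' h1'
  refine ⟨crv (lam ^ 8) lam h0' h1' h0 h1, crv lam lam h0 h1 h0 h1, rfl, rfl, hF, hT, fun ζ hζ => ⟨fun Z => ?_, fun F G sol hS => ?_⟩⟩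
  · have h := (hM ζ hζ).1 Z
    choose γ hγ using h
    exact ⟨⟨γ, hγ⟩⟩
  · exact not_nonempty_iff.mpr ((hM ζ hζ).2 F.γ G.γ F.inert G.inert sol) hS

end Pool.Agent.Results.MP_9a897e_ag.FrobeniusTwist
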