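import Pool.Agent.helper66.EDP.Bridge

/-! # The weak Isom-version conjecture for smooth pointed curves of genus zero

For all points (closed or not) of the moduli spaces `M_{0,n}` in characteristic `p`, all `n ≥ 3`: the tame fundamental
group determines the curve up to isomorphism of abstract schemes, and conversely. -/

namespace Pool.Agent.Results.MP_9a897e_ag.GenusZeroWeakIsom

open Pool.Agent.helper66.EDP

/-- Let `k₁, k₂` be algebraically closed fields of characteristic `p`, `l₁, l₂` points of `M_{0,n₁}`, `M_{0,n₂}`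
(`n_i = m_i + 3`) over them such that `k_i` is an algebraic closure of `F_p(l_i)`.  Then the tame fundamental groups of
`P^1 ∖ {∞, 0, 1, l_i}` are isomorphic as topological groups iff the two curves are isomorphic as abstract schemes. -/
theorem result : ∀ (p : ℕ) [Fact p.Prime] (k₁ k₂ : Type) [Field k₁] [Field k₂] [CharP k₁ p] [CharP k₂ p]
    [IsAlgClosed k₁] [IsAlgClosed k₂] (m₁ m₂ : ℕ) (l₁ : Fin m₁ → k₁) (l₂ : Fin m₂ → k₂),
    IsConf l₁ → IsConf l₂ →
    (∀ x : k₁, IsAlgebraic (Subfield.closure (Set.range l₁)) x) →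
    (∀ x : k₂, IsAlgebraic (Subfield.closure (Set.range l₂)) x) →
    (TameGroupIso p (marked l₁) (marked l₂) ↔ Nonempty (curve l₁ ≅ curve l₂)) :=
  fun p _ k₁ k₂ _ _ _ _ _ _ m₁ m₂ l₁ l₂ h₁ h₂ a₁ a₂ => iso_iff p k₁ k₂ m₁ m₂ l₁ l₂ h₁ h₂ a₁ a₂

end Pool.Agent.Results.MP_9a897e_ag.GenusZeroWeakIsom
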